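import Pool.Agent.Helper853.Df.Wex

open scoped Topology ContDiff

namespace Pool.Agent.Results.MP_b3426d_an.Answer

open Pool.Agent.Helper853.Df

/-- The unit bidisc in `ℂ²`. -/
def bidisc : Set C2 := {x | ‖x 0‖ < 1 ∧ ‖x 1‖ < 1}

lemma bidisc_eq : bidisc = Metric.ball (0 : C2) 1 := by
  ext x
  rw [mem_ball_zero_iff, pi_norm_lt_iff one_pos, Fin.forall_fin_two]
  rfl

/-- The answer to the question, on the set where `dd^c φ` does not vanish and on its closure.

(1) For every maximal plurisubharmonic function `φ` of class `C²` (hence of class `C^{2,α}`,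
`0 ≤ α < 1`) on an open set of `ℂ²`, the set where `dd^c φ` does not vanish is open and is foliated
by holomorphic discs along which `φ` is harmonic.

(2) The closure of this set need not be laminated, whatever the smoothness: there is a `C^∞`
function on `ℂ²` which is plurisubharmonic and maximal on the unit bidisc `D` and such that over
every point `z` of the unit disc there is a point `(z, w)` of the support of `dd^c φ` in `D` through
which there is no nonconstant holomorphic disc in `D` along which `φ` is harmonic. -/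
theorem result :
    (∀ (Ω : Set C2) (φ : C2 → ℝ), IsOpen Ω → ContDiffOn ℝ 2 φ Ω →
      IsPshOn Ω (fun x => (φ x : EReal)) → IsMaximalOn Ω φ →
        IsOpen (nonzeroSet Ω φ) ∧ FoliatedByHarmonicDiscs (nonzeroSet Ω φ) φ) ∧
    ∃ φ : C2 → ℝ, ContDiff ℝ ∞ φ ∧ IsPshOn bidisc (fun x => (φ x : EReal)) ∧
      IsMaximalOn bidisc φ ∧ ∀ z : ℂ, ‖z‖ < 1 → ∃ w : ℂ, ![z, w] ∈ supp bidisc φ ∧
        NoHarmonicDiscThrough bidisc φ ![z, w] := by
  refine ⟨fun Ω φ hΩ hφ hpsh hmax => foliation hΩ hφ hpsh hmax, ?_⟩
  rw [bidisc_eq]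
  exact exists_bad

end Pool.Agent.Results.MP_b3426d_an.Answer
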