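import Pool.Agent.Helper853.Df.Bridge

open scoped Topology ContDiff

namespace Pool.Agent.Results.MP_b3426d_an.Foliation

open Pool.Agent.Helper853.Df

/-- Let `φ` be a maximal plurisubharmonic function of class `C²` (no Hölder condition on the second
derivatives is needed, so this covers `C^{2,α}` for every `0 ≤ α < 1`) on an open set `Ω` of `ℂ²`.
Then the set where `dd^c φ` does not vanish is open and is foliated by holomorphic discs along
which `φ` is harmonic. -/
theorem result (Ω : Set C2) (hΩ : IsOpen Ω) (φ : C2 → ℝ) (hφ : ContDiffOn ℝ 2 φ Ω)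
    (hpsh : IsPshOn Ω fun x => (φ x : EReal)) (hmax : IsMaximalOn Ω φ) :
    IsOpen (nonzeroSet Ω φ) ∧ FoliatedByHarmonicDiscs (nonzeroSet Ω φ) φ :=
  foliation hΩ hφ hpsh hmax

end Pool.Agent.Results.MP_b3426d_an.Foliation
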