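import Pool.Agent.Helper853.Df.Wex

open scoped Topology ContDiff

namespace Pool.Agent.Results.MP_b3426d_an.NoDisc

open Pool.Agent.Helper853.Df

/-- The unit bidisc in `ℂ²`. -/
def bidisc : Set C2 := {x | ‖x 0‖ < 1 ∧ ‖x 1‖ < 1}

lemma bidisc_eq : bidisc = Metric.ball (0 : C2) 1 := by
  ext x
  rw [mem_ball_zero_iff, pi_norm_lt_iff one_pos, Fin.forall_fin_two]
  rfl

/-- There is a `C^∞` function on `ℂ²` which is plurisubharmonic and maximal on the unit bidisc `D`
and such that over every point `z` of the unit disc there is a point `(z, w)` of the support of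
`dd^c φ` in `D` through which there is no nonconstant holomorphic disc in `D` along which `φ` is
harmonic. -/
theorem result : ∃ φ : C2 → ℝ, ContDiff ℝ ∞ φ ∧ IsPshOn bidisc (fun x => (φ x : EReal)) ∧
    IsMaximalOn bidisc φ ∧ ∀ z : ℂ, ‖z‖ < 1 → ∃ w : ℂ, ![z, w] ∈ supp bidisc φ ∧
      NoHarmonicDiscThrough bidisc φ ![z, w] := by
  rw [bidisc_eq]
  exact exists_bad

end Pool.Agent.Results.MP_b3426d_an.NoDisc
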